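import Mathlib
import Pool.Agent.R29.FRBal

/-!
# Balanced fractional revival between vertices which are not cospectral (MP_74778d_co, Q1)
-/

set_option autoImplicit false

open Matrix Finset

namespace Pool.Agent.Results.MP_74778d_co.BalancedRevival

open Pool.Agent.R29.FR Pool.Agent.R29.FRG Pool.Agent.R29.FRM Pool.Agent.R29.FRBal

/-- Balanced fractional revival from `a` to `b` at the time `τ`: there are complex numbers `α, β`
with `|α| = |β| = 1 / √2` and `exp (i τ A) e_a = α e_a + β e_b`. -/
def BalancedFractionalRevival {V : Type} [Fintype V] [DecidableEq V] (X : SimpleGraph V)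
    [DecidableRel X.Adj] (a b : V) (τ : ℝ) : Prop :=
  ∃ α β : ℂ, ‖α‖ = 1 / √2 ∧ ‖β‖ = 1 / √2 ∧
    NormedSpace.exp (((τ : ℂ) * Complex.I) • X.adjMatrix ℂ) *ᵥ Pi.single a 1
      = α • Pi.single a (1 : ℂ) + β • Pi.single b (1 : ℂ)

/-- The diagonal entry `(E_θ)_{a, a}`, where `E_θ` is the orthogonal projection onto the eigenspace
of the adjacency matrix of `X` for the number `θ`. -/
noncomputable def projDiag {V : Type} [Fintype V] [DecidableEq V] (X : SimpleGraph V)
    [DecidableRel X.Adj] (θ : ℝ) (a : V) : ℝ :=
  ((Module.End.eigenspace (Matrix.toEuclideanLin (X.adjMatrix ℝ)) θ).starProjection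
    (EuclideanSpace.single a 1)) a

/-- The vertices `a, b` are cospectral. -/
def Cospectral {V : Type} [Fintype V] [DecidableEq V] (X : SimpleGraph V) [DecidableRel X.Adj]
    (a b : V) : Prop := ∀ θ : ℝ, projDiag X θ a = projDiag X θ b

/-- There are a finite simple graph `X` and two different vertices `a, b` which are not cospectral
such that balanced fractional revival occurs from `a` to `b` at some time `τ > 0`. -/
theorem result : ∃ (V : Type) (_ : Fintype V) (_ : DecidableEq V) (X : SimpleGraph V)
    (_ : DecidableRel X.Adj) (a b : V), a ≠ b ∧ ¬ Cospectral X a b ∧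
      ∃ τ : ℝ, 0 < τ ∧ BalancedFractionalRevival X a b τ := by
  refine ⟨dB.V, inferInstance, inferInstance, dB.graph, inferInstance, ba, bb, by simp, ?_,
    tB, tB_pos, ?_⟩
  · intro h
    exact diag_ne (h (pB q1))
  · obtain ⟨α, β, hα, hβ, h⟩ := revivalB
    exact ⟨α, β, hα, hβ, h⟩

end Pool.Agent.Results.MP_74778d_co.BalancedRevival
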